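import Pool.Agent.V11190.Quad10

/-!
# Perpendicular chords that quadrisect the perimeter of a convex figure

`MP_bff4fe_gt`, Q1 (full, affirmative answer).

Let `c₁`, `c₂` be perpendicular chords of a plane convex figure `F` whose end points cut the
boundary into four arcs of length `L / 4`.  Then `2 (|c₁| + |c₂|) ≥ L`, with equality only for
rectangles.

Proof.  The chords cross at an interior point `o`.  Let `x_i` be the distances of `o` to the four
end points in their cyclic order, let `l = L / 4`, and let `s_i` be the sine of the angle between a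
supporting line at the `i`-th point and the perpendicular to the chord.  Every chord of the `i`-th
arc has a direction between the two supporting directions, and this gives
`(1 + s_i) x_i + (1 - s_{i+1}) x_{i+1} ≥ (1 + s_i - s_{i+1}) l`, unless two consecutive supporting
lines are tilted too much in the same sense; that case is excluded since all arcs have the same
length.  The sum of the four inequalities is `2 (x_0 + x_1 + x_2 + x_3) ≥ 4 l`.
-/

set_option autoImplicit false

open Set Pool.Agent.V11190.Quad

namespace Pool.Agent.Results.MP_bff4fe_gt.PerimeterBound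

/-- Let `F` be a compact convex set with interior points in the plane, let `γ` run once around its
boundary, and let `γ t₁, γ t₂, γ t₃, γ t₄` be four points in this order which cut the boundary into
four arcs of length `L / 4`, where `L` is the length of the boundary.  If the chords
`[γ t₁, γ t₃]` and `[γ t₂, γ t₄]` are perpendicular, then twice the sum of their lengths is at
least `L`, and equality holds only if `F` is a rectangle. -/
theorem result (F : Set ℂ) (hF : Convex ℝ F) (hFc : IsCompact F) (hFi : (interior F).Nonempty)
    (γ : ℝ → ℂ) (hγ : IsBoundaryLoop F γ) (t₁ t₂ t₃ t₄ : ℝ)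
    (h12 : t₁ < t₂) (h23 : t₂ < t₃) (h34 : t₃ < t₄) (h41 : t₄ < t₁ + 1)
    (a1 : eVariationOn γ (Icc t₁ t₂) = eVariationOn γ (Icc 0 1) / 4)
    (a2 : eVariationOn γ (Icc t₂ t₃) = eVariationOn γ (Icc 0 1) / 4)
    (a3 : eVariationOn γ (Icc t₃ t₄) = eVariationOn γ (Icc 0 1) / 4)
    (a4 : eVariationOn γ (Icc t₄ (t₁ + 1)) = eVariationOn γ (Icc 0 1) / 4)
    (hperp : inner ℝ (γ t₃ - γ t₁) (γ t₄ - γ t₂) = 0) :
    eVariationOn γ (Icc 0 1) ≤ ENNReal.ofReal (2 * (‖γ t₃ - γ t₁‖ + ‖γ t₄ - γ t₂‖)) ∧
    (eVariationOn γ (Icc 0 1) = ENNReal.ofReal (2 * (‖γ t₃ - γ t₁‖ + ‖γ t₄ - γ t₂‖)) →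
      IsRectangle F) :=
  main_length hF hFc hFi hγ h12 h23 h34 h41 a1 a2 a3 a4 hperp

end Pool.Agent.Results.MP_bff4fe_gt.PerimeterBound
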